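import Pool.Agent.Lib.MP_f6f4b2_co.Wrap

set_option autoImplicit false

open Finset
open Pool.Agent.MP_f6f4b2_co

namespace Pool.Agent.Results.MP_f6f4b2_co.BlockStructure

/-- The conclusion of Q1: a core on at most nine vertices. -/
def HasCore9 {V : Type*} [DecidableEq V] (H : Finset (Finset V)) : Prop :=
  ∃ F ⊆ H, F.Nonempty ∧ (F.biUnion id).card ≤ 9 ∧
    ∀ v ∈ F.biUnion id, 2 ≤ (F.filter (fun e => v ∈ e)).card

/-- Block structure: let `c, K > 0`, let `t` be at least `t₀ (c, K)` and let `n` be at least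
`n₀ (c, K, t)`.  If the vertices of a linear 3-graph on `n` vertices with at least `c n ^ 2` edges
are split into `m` blocks of size at most `t`, with `m t ≤ K n`, and the edges meet at most
`K m ^ 2` different sets of blocks, then the 3-graph contains the grid, so it has a core on at
most nine vertices. -/
theorem result :
    ∀ c K : ℝ, 0 < c → 0 < K → ∃ t₀ : ℕ, ∀ t : ℕ, t₀ ≤ t → ∃ n₀ : ℕ, ∀ n : ℕ, n₀ ≤ n →
      ∀ H : Finset (Finset (Fin n)), IsLinear H → c * (n : ℝ) ^ 2 ≤ (#H : ℝ) →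
      ∀ (m : ℕ) (b : Fin n → Fin m), (∀ j, #(Finset.univ.filter (fun v => b v = j)) ≤ t) →
      (m : ℝ) * t ≤ K * n → (#(H.image (fun e => e.image b)) : ℝ) ≤ K * (m : ℝ) ^ 2 →
      HasGrid H ∧ HasCore9 H := by
  intro c K hc hK
  obtain ⟨t₀, h0⟩ := grid_of_blocks c K hc hK
  refine ⟨t₀, fun t ht => ?_⟩
  obtain ⟨n₀, h1⟩ := h0 t ht
  refine ⟨n₀, fun n hn H hH hcard m b hb hmt himg => ?_⟩
  have hg := h1 n hn H hH hcard m b hb hmt himg
  exact ⟨hg, core_of_grid H hg⟩

end Pool.Agent.Results.MP_f6f4b2_co.BlockStructure
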