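import Pool.Agent.Lib.MP_f6f4b2_co.Wrap

set_option autoImplicit false

open Finset
open Pool.Agent.MP_f6f4b2_co

namespace Pool.Agent.Results.MP_f6f4b2_co.LipschitzFunctions

/-- The conclusion of Q1: a core on at most nine vertices. -/
def HasCore9 {V : Type*} [DecidableEq V] (H : Finset (Finset V)) : Prop :=
  ∃ F ⊆ H, F.Nonempty ∧ (F.biUnion id).card ≤ 9 ∧
    ∀ v ∈ F.biUnion id, 2 ≤ (F.filter (fun e => v ∈ e)).card

/-- Let `c > 0`, let `d > 0` and `L` be natural numbers and let `N` be large.  For every Lipschitz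
partial function `f : [N]^d × [N]^d → ℤ^d` (sup norms, Lipschitz constant `L`) which is injective
in each argument and defined on at least `c N ^ (2 d)` pairs (`S` is its domain), the 3-partite
linear 3-graph with the edges `{x, y, f x y}`, `(x, y) ∈ S`, contains the grid, so it has a core on
at most nine vertices. -/
theorem result :
    ∀ (c : ℝ) (d L : ℕ), 0 < c → 0 < d → ∃ N₀ : ℕ, ∀ N : ℕ, N₀ ≤ N →
      ∀ (S : Finset ((Fin d → Fin N) × (Fin d → Fin N)))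
        (f : (Fin d → Fin N) → (Fin d → Fin N) → (Fin d → ℤ)),
      (∀ x ∈ S, ∀ y ∈ S, ∀ R : ℕ, (∀ i, |((x.1 i : ℕ) : ℤ) - ((y.1 i : ℕ) : ℤ)| ≤ R) →
        (∀ i, |((x.2 i : ℕ) : ℤ) - ((y.2 i : ℕ) : ℤ)| ≤ R) →
        ∀ i, |f x.1 x.2 i - f y.1 y.2 i| ≤ L * R) →
      (∀ x ∈ S, ∀ y ∈ S, f x.1 x.2 = f y.1 y.2 → (x.1 = y.1 ∨ x.2 = y.2) → x = y) →
      c * ((N : ℝ) ^ d) ^ 2 ≤ (#S : ℝ) → HasGrid (graphOf S f) ∧ HasCore9 (graphOf S f) := by
  intro c d L hc hd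
  obtain ⟨N₀, h1⟩ := thomsen_of_lipschitz d L hd c hc
  refine ⟨N₀, fun N hN S f hlip hinj hcard => ?_⟩
  have hg := hasGrid_graphOf S f (h1 N hN S f hlip hinj hcard)
  exact ⟨hg, core_of_grid _ hg⟩

end Pool.Agent.Results.MP_f6f4b2_co.LipschitzFunctions
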