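import Pool.Agent.Lib.MP_f6f4b2_co.Wrap

set_option autoImplicit false

open Finset
open Pool.Agent.MP_f6f4b2_co

namespace Pool.Agent.Results.MP_f6f4b2_co.MonotoneFunctions

/-- The conclusion of Q1: a core on at most nine vertices. -/
def HasCore9 {V : Type*} [DecidableEq V] (H : Finset (Finset V)) : Prop :=
  ∃ F ⊆ H, F.Nonempty ∧ (F.biUnion id).card ≤ 9 ∧
    ∀ v ∈ F.biUnion id, 2 ≤ (F.filter (fun e => v ∈ e)).card

/-- Let `c, K > 0` and let `n` be large.  For every strictly increasing partial function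
`f : [n] × [n] → [K n]` defined on at least `c n ^ 2` pairs (`S` is its domain), the 3-partite
linear 3-graph with the edges `{x, y, f x y}`, `(x, y) ∈ S`, contains the grid, so it has a core on
at most nine vertices. -/
theorem result :
    ∀ (c : ℝ) (K : ℕ), 0 < c → 0 < K → ∃ n₀ : ℕ, ∀ n : ℕ, n₀ ≤ n →
      ∀ (S : Finset (Fin n × Fin n)) (f : Fin n → Fin n → Fin (K * n)),
      (∀ x ∈ S, ∀ y ∈ S, x.1 ≤ y.1 → x.2 ≤ y.2 → x ≠ y → f x.1 x.2 < f y.1 y.2) →
      c * (n : ℝ) ^ 2 ≤ (#S : ℝ) → HasGrid (graphOf S f) ∧ HasCore9 (graphOf S f) := by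
  intro c K hc hK
  obtain ⟨n₀, h1⟩ := thomsen_of_monotone c hc K hK
  refine ⟨n₀, fun n hn S f hf hcard => ?_⟩
  have hg := hasGrid_graphOf S f (h1 n hn S f hf hcard)
  exact ⟨hg, core_of_grid _ hg⟩

end Pool.Agent.Results.MP_f6f4b2_co.MonotoneFunctions
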