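import Mathlib
import Pool.Agent.Lib.MP_f6f4b2_co_Neg.Main

set_option autoImplicit false

namespace Pool.Agent.Results.MP_f6f4b2_co.NoSmallCores

/-- `H` is (the edge set of) a linear 3-graph on the vertex set `Fin n`: all edges have three
vertices, and two distinct edges share at most one vertex. -/
def IsLinear3Graph {n : ℕ} (H : Finset (Finset (Fin n))) : Prop :=
  (∀ e ∈ H, e.card = 3) ∧ ∀ e ∈ H, ∀ f ∈ H, e ≠ f → (e ∩ f).card ≤ 1

/-- `F` is a core of `H`: a nonempty set of edges of `H` such that every vertex of `F` lies in at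
least two edges of `F`. -/
def IsCore {n : ℕ} (H F : Finset (Finset (Fin n))) : Prop :=
  F ⊆ H ∧ F.Nonempty ∧ ∀ v ∈ F.biUnion id, 2 ≤ (F.filter (fun e => v ∈ e)).card

/-- Adding isolated vertices. -/
lemma transfer {a b : ℕ} (φ : Fin a ↪ Fin b) {H : Finset (Finset (Fin a))}
    (hlin : IsLinear3Graph H) (hcore : ∀ F, IsCore H F → 10 ≤ (F.biUnion id).card) :
    IsLinear3Graph (H.map (Finset.mapEmbedding φ).toEmbedding) ∧
      ∀ F, IsCore (H.map (Finset.mapEmbedding φ).toEmbedding) F → 10 ≤ (F.biUnion id).card := by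
  refine ⟨⟨?_, ?_⟩, ?_⟩
  · intro e' he'
    obtain ⟨e, he, rfl⟩ := Finset.mem_map.mp he'
    simpa using hlin.1 e he
  · intro e' he' f' hf' hef
    obtain ⟨e, he, rfl⟩ := Finset.mem_map.mp he'
    obtain ⟨f, hf, rfl⟩ := Finset.mem_map.mp hf'
    have h1 := hlin.2 e he f hf (fun h => hef (by rw [h]))
    simp only [RelEmbedding.coe_toEmbedding, Finset.mapEmbedding_apply]
    rw [← Finset.map_inter, Finset.card_map]
    exact h1
  · rintro F ⟨hF, hne, hdeg⟩
    obtain ⟨F, hFH, rfl⟩ := Finset.subset_map_iff.mp hF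
    have hb : (F.map (Finset.mapEmbedding φ).toEmbedding).biUnion id = (F.biUnion id).map φ := by
      ext v
      simp only [Finset.mem_biUnion, Finset.mem_map, id]
      constructor
      · rintro ⟨_, ⟨e, he, rfl⟩, hv⟩
        obtain ⟨w, hw, rfl⟩ := Finset.mem_map.mp hv
        exact ⟨w, ⟨e, he, hw⟩, rfl⟩
      · rintro ⟨w, ⟨e, he, hw⟩, rfl⟩
        exact ⟨_, ⟨e, he, rfl⟩, Finset.mem_map.mpr ⟨w, hw, rfl⟩⟩
    rw [hb, Finset.card_map]
    refine hcore F ⟨hFH, Finset.map_nonempty.mp hne, ?_⟩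
    intro v hv
    have h1 := hdeg (φ v) (by rw [hb]; exact Finset.mem_map.mpr ⟨v, hv, rfl⟩)
    rw [Finset.filter_map, Finset.card_map] at h1
    refine h1.trans (le_of_eq ?_)
    congr 1
    refine Finset.filter_congr ?_
    intro e _
    simp only [Function.comp_apply, RelEmbedding.coe_toEmbedding, Finset.mapEmbedding_apply,
      Finset.mem_map']

/-- **Dense linear 3-graphs without small cores.** For every `n ≥ 3` there is a linear 3-graph on
`n` vertices with at least `n ^ 2 / 1152` edges in which every core has at least ten vertices. -/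
theorem result : ∀ n : ℕ, 3 ≤ n → ∃ H : Finset (Finset (Fin n)), IsLinear3Graph H ∧
    (n : ℝ) ^ 2 / 1152 ≤ (H.card : ℝ) ∧ ∀ F, IsCore H F → 10 ≤ (F.biUnion id).card := by
  intro n hn
  by_cases h24 : n < 24
  · obtain ⟨e, -, he⟩ := Finset.exists_subset_card_eq
      (show 3 ≤ (Finset.univ : Finset (Fin n)).card by simpa using hn)
    refine ⟨{e}, ⟨?_, ?_⟩, ?_, ?_⟩
    · intro f hf
      rw [Finset.mem_singleton.mp hf, he]
    · intro f hf g hg hfg
      exact absurd ((Finset.mem_singleton.mp hf).trans (Finset.mem_singleton.mp hg).symm) hfg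
    · have h1 : (n : ℝ) ≤ 24 := by exact_mod_cast h24.le
      have h0 : (0 : ℝ) ≤ n := Nat.cast_nonneg n
      simp only [Finset.card_singleton, Nat.cast_one]
      nlinarith
    · rintro F ⟨hF, hne, hdeg⟩
      exfalso
      have hFe : F = {e} := by
        rcases Finset.subset_singleton_iff.mp hF with h | h
        · exact absurd h hne.ne_empty
        · exact h
      have hepos : e.Nonempty := Finset.card_pos.mp (by omega)
      obtain ⟨v, hv⟩ := hepos
      have h2 := hdeg v (by rw [hFe]; simpa using hv)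
      have h3 : (F.filter (fun e => v ∈ e)).card ≤ F.card := Finset.card_filter_le _ _
      rw [hFe, Finset.card_singleton] at h3
      rw [hFe] at h2
      omega
  · push Not at h24
    set L : ℕ := Nat.log 2 (n / 3) with hL
    have h8 : 8 ≤ n / 3 := by omega
    have hL3 : 3 ≤ L := by
      rw [hL]
      exact (Nat.le_log_iff_pow_le (by norm_num) (by omega)).mpr (by simpa using h8)
    set m : ℕ := (L - 1) / 2 with hm
    have hm1 : 1 ≤ m := by omega
    have h1 : 2 ^ (2 * m + 1) ≤ n / 3 :=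
      (Nat.pow_le_pow_right (by norm_num) (by omega)).trans (Nat.pow_log_le_self 2 (by omega))
    have h2 : n / 3 < 2 ^ (2 * m + 3) :=
      (Nat.lt_pow_succ_log_self (by norm_num) _).trans_le
        (Nat.pow_le_pow_right (by norm_num) (by omega))
    obtain ⟨H, hc, hl, hcard, hcore⟩ :=
      Pool.Agent.MP_f6f4b2_co_Neg.exists_hypergraph m hm1
    have hle : 3 * 2 ^ (2 * m + 1) ≤ n := by omega
    have hlin : IsLinear3Graph H := by
      refine ⟨hc, ?_⟩
      intro e he f hf hef
      convert hl e he f hf hef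
    have hco : ∀ F, IsCore H F → 10 ≤ (F.biUnion id).card := by
      rintro F ⟨hF, hne, hdeg⟩
      by_contra hlt
      push Not at hlt
      refine hcore F hF hne (by convert (by omega : (F.biUnion id).card ≤ 9)) ?_
      intro v hv
      convert hdeg v (by convert hv)
    obtain ⟨t1, t2⟩ := transfer (Fin.castLEEmb hle) hlin hco
    refine ⟨_, t1, ?_, t2⟩
    rw [Finset.card_map]
    have h3 : n < 12 * 2 ^ (2 * m + 1) := by
      have : 2 ^ (2 * m + 3) = 4 * 2 ^ (2 * m + 1) := by rw [pow_add]; ring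
      omega
    have h4 : (n : ℝ) ≤ 12 * (2 : ℝ) ^ (2 * m + 1) := by exact_mod_cast h3.le
    have h5 : ((2 : ℝ) ^ (2 * m + 1)) ^ 2 ≤ 8 * (H.card : ℝ) := by exact_mod_cast hcard
    have h0 : (0 : ℝ) ≤ n := Nat.cast_nonneg n
    have h6 : (n : ℝ) ^ 2 ≤ (12 * (2 : ℝ) ^ (2 * m + 1)) ^ 2 := pow_le_pow_left₀ h0 h4 2
    rw [mul_pow] at h6
    linarith

end Pool.Agent.Results.MP_f6f4b2_co.NoSmallCores
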